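import Pool.Agent.Helper20.TypeTwo.Construction

open Pool.Agent.Helper20.TypeTwo

namespace Pool.Agent.Results.MP_0e64fd_an.TypeTwoExists

/-- There are a transcendental entire function `f` and a multiply connected wandering domain `U`
of `f` having a complementary component `K` of type 2. -/
theorem result :
    ∃ f : ℂ → ℂ, IsTranscendentalEntire f ∧
      ∃ U : Set ℂ, IsWanderingDomain f U ∧ IsMultiplyConnected U ∧
        ∃ K : Set ℂ, IsComplementaryComponent U K ∧ IsTypeTwo f K :=
  ⟨ff, ⟨differentiable_ff, ff_not_polynomial⟩, UU 0, isWanderingDomain_UU,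
    not_isPreconnected_compl_UU 0,
    KK 0, ⟨_, rr_mem_compl 0, rfl⟩, isTypeTwo_KK 0⟩

end Pool.Agent.Results.MP_0e64fd_an.TypeTwoExists
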